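import Mathlib
import Pool.Agent.helper1.SF.SpecA

/-! Project SF, module MSA: `Φ` of a sum of packets. -/

set_option autoImplicit false

namespace SF

open MeasureTheory Set
open scoped ContDiff Topology

lemma MSA_eta_one {u : ℝ} (h : u ≤ 1 / 4) : eta u = 1 :=
  Real.smoothTransition.one_of_one_le (by linarith)

lemma MSA_eta_zero {u : ℝ} (h : 1 / 2 ≤ u) : eta u = 0 :=
  Real.smoothTransition.zero_of_nonpos (by linarith)

lemma MSA_eta_contDiff : ContDiff ℝ ∞ eta := by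
  unfold eta
  exact Real.smoothTransition.contDiff.comp (contDiff_const.sub (contDiff_const.mul contDiff_id))

lemma MSA_eta_diff (u : ℝ) : HasDerivAt eta (deriv eta u) u :=
  (MSA_eta_contDiff.differentiable (by norm_num)).differentiableAt.hasDerivAt

lemma MSA_deriv_eta_cont : Continuous (deriv eta) :=
  MSA_eta_contDiff.continuous_deriv (by norm_num)

lemma MSA_om_cont : Continuous om := by
  unfold om
  exact (continuous_const.mul MSA_eta_contDiff.continuous).add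
    (continuous_id.mul MSA_deriv_eta_cont)

/-- the function `E` -/
noncomputable def MSA_E (ka K : ℕ) (w : ℝ) : ℝ := √w * (eta (2 ^ ka * w) - eta (2 ^ K * w))

lemma MSA_E_nonpos (ka K : ℕ) {w : ℝ} (h : w ≤ 0) : MSA_E ka K w = 0 := by
  unfold MSA_E; rw [Real.sqrt_eq_zero_of_nonpos h, zero_mul]

/-- the derivative of `E` -/
noncomputable def MSA_D (ka K : ℕ) (w : ℝ) : ℝ :=
  if 0 < w then (om (2 ^ ka * w) - om (2 ^ K * w)) / √w else 0

lemma MSA_hasDeriv (ka K : ℕ) (hk : ka ≤ K) (w : ℝ) :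
    HasDerivAt (MSA_E ka K) (MSA_D ka K w) w := by
  rcases lt_or_ge 0 w with hw | hw
  · have h1 : HasDerivAt (fun u : ℝ => √u) (1 / (2 * √w)) w := Real.hasDerivAt_sqrt hw.ne'
    have h2 : HasDerivAt (fun u : ℝ => eta (2 ^ ka * u)) (deriv eta (2 ^ ka * w) * (2 ^ ka * 1)) w :=
      (MSA_eta_diff (2 ^ ka * w)).comp w ((hasDerivAt_id w).const_mul _)
    have h3 : HasDerivAt (fun u : ℝ => eta (2 ^ K * u)) (deriv eta (2 ^ K * w) * (2 ^ K * 1)) w :=
      (MSA_eta_diff (2 ^ K * w)).comp w ((hasDerivAt_id w).const_mul _)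
    have h4 := h1.mul (h2.sub h3)
    have h5 : 0 < √w := Real.sqrt_pos.mpr hw
    have h6 : √w * √w = w := Real.mul_self_sqrt hw.le
    refine h4.congr_deriv ?_
    unfold MSA_D om
    rw [if_pos hw]
    field_simp
    simp only [Pi.sub_apply]
    have h7 : √w ^ 2 = w := by rw [sq, h6]
    rw [h7]
    ring
  · have hz : ∀ᶠ u in 𝓝 w, MSA_E ka K u = 0 := by
      have : (Iio (1 / (4 * 2 ^ K) : ℝ)) ∈ 𝓝 w := Iio_mem_nhds (lt_of_le_of_lt hw (by positivity))
      filter_upwards [this] with u hu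
      unfold MSA_E
      rcases le_or_gt u 0 with h0 | h0
      · rw [Real.sqrt_eq_zero_of_nonpos h0, zero_mul]
      · have hu' : u * (4 * 2 ^ K) < 1 := by
          rw [mem_Iio, lt_div_iff₀ (by positivity)] at hu
          exact hu
        have hK : (2 : ℝ) ^ ka ≤ 2 ^ K := pow_le_pow_right₀ (by norm_num) hk
        have h1 : (2 : ℝ) ^ K * u ≤ 1 / 4 := by nlinarith
        have h2 : (2 : ℝ) ^ ka * u ≤ 1 / 4 := by nlinarith
        rw [MSA_eta_one h1, MSA_eta_one h2, sub_self, mul_zero]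
    have hD : MSA_D ka K w = 0 := by
      unfold MSA_D; rw [if_neg (not_lt.mpr hw)]
    rw [hD]
    exact (hasDerivAt_const w (0 : ℝ)).congr_of_eventuallyEq hz

lemma MSA_pk (k : ℕ) {a : ℝ} (ha : 1 < a) :
    pk k a = √((1 - 1 / a) / a) * (eta (2 ^ k * (1 - 1 / a)) - eta (2 ^ (k + 1) * (1 - 1 / a))) := by
  unfold pk E0
  rw [if_pos ha]
  have ha0 : 0 < a := by linarith
  have hv : 0 ≤ 1 - 1 / a := by
    rw [sub_nonneg, div_le_one ha0]; exact ha.le
  have h2 : (0 : ℝ) < 2 ^ k := by positivity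
  have e1 : √(2 ^ k * (1 - 1 / a)) / √(2 ^ k * a) = √((1 - 1 / a) / a) := by
    rw [← Real.sqrt_div (by positivity)]
    congr 1
    rw [mul_div_mul_left _ _ h2.ne']
  have e2 : (2 : ℝ) * (2 ^ k * (1 - 1 / a)) = 2 ^ (k + 1) * (1 - 1 / a) := by ring
  rw [e2, mul_div_right_comm, e1]

lemma MSA_gs (ka K : ℕ) (hk : ka ≤ K) {a : ℝ} (ha : 1 < a) :
    gs ka K a = √((1 - 1 / a) / a) * (eta (2 ^ ka * (1 - 1 / a)) - eta (2 ^ K * (1 - 1 / a))) := by
  unfold gs
  rw [Finset.sum_congr rfl (fun k _ => MSA_pk k ha), ← Finset.mul_sum]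
  congr 1
  have := Finset.sum_Ico_sub (fun k : ℕ => -eta (2 ^ k * (1 - 1 / a))) hk
  have h2 : ∀ k : ℕ, -eta (2 ^ (k + 1) * (1 - 1 / a)) - -eta (2 ^ k * (1 - 1 / a)) =
      eta (2 ^ k * (1 - 1 / a)) - eta (2 ^ (k + 1) * (1 - 1 / a)) := fun k => by ring
  rw [Finset.sum_congr rfl (fun k _ => h2 k)] at this
  rw [this]; ring

lemma MSA_GG (ka K : ℕ) (hk : ka ≤ K) {r : ℝ} (hr : 0 < r) :
    GG (gs ka K) r = MSA_E ka K (1 - r ^ 2) := by
  unfold GG
  rcases lt_or_ge r 1 with h1 | h1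
  · have hr2 : 0 < r ^ 2 := by positivity
    have h2 : r ^ 2 < 1 := by nlinarith
    have ha : 1 < 1 / r ^ 2 := by rw [lt_div_iff₀ hr2]; linarith
    rw [MSA_gs ka K hk ha]
    have e1 : 1 - 1 / (1 / r ^ 2) = 1 - r ^ 2 := by rw [one_div_one_div]
    rw [e1]
    have e2 : (1 - r ^ 2) / (1 / r ^ 2) = (1 - r ^ 2) * r ^ 2 := by
      rw [div_div_eq_mul_div, div_one]
    rw [e2, Real.sqrt_mul (by linarith), Real.sqrt_sq hr.le]
    unfold MSA_E
    field_simp
  · have h2 : (1 : ℝ) ≤ r ^ 2 := by nlinarith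
    have h3 : 1 / r ^ 2 ≤ 1 := by rw [div_le_one (by positivity)]; exact h2
    rw [MSA_E_nonpos ka K (by linarith)]
    have : gs ka K (1 / r ^ 2) = 0 := by
      unfold gs
      refine Finset.sum_eq_zero (fun k _ => ?_)
      unfold pk
      rw [if_neg (not_lt.mpr h3)]
    rw [this, zero_div]

lemma MSA_dGG (ka K : ℕ) (hk : ka ≤ K) {r : ℝ} (hr : 0 < r) :
    deriv (GG (gs ka K)) r = -2 * r * MSA_D ka K (1 - r ^ 2) := by
  have h1 : HasDerivAt (fun u : ℝ => 1 - u ^ 2) (-(2 * r)) r := by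
    have := (hasDerivAt_pow 2 r).const_sub 1
    refine this.congr_deriv ?_
    simp
  have h2 : HasDerivAt (fun u : ℝ => MSA_E ka K (1 - u ^ 2)) (MSA_D ka K (1 - r ^ 2) * -(2 * r)) r :=
    HasDerivAt.comp (h₂ := MSA_E ka K) r (MSA_hasDeriv ka K hk (1 - r ^ 2)) h1
  have h3 : GG (gs ka K) =ᶠ[𝓝 r] fun u : ℝ => MSA_E ka K (1 - u ^ 2) := by
    filter_upwards [Ioi_mem_nhds hr] with u hu
    exact MSA_GG ka K hk hu
  rw [h3.deriv_eq, h2.deriv]
  ring

lemma MSA_om_integrable (σ : ℝ) :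
    IntervalIntegrable (fun t => om (σ * t) / √(t * (1 - t))) volume 0 1 := by
  have i1 : IntervalIntegrable (fun t : ℝ => t ^ (-(1 / 2) : ℝ)) volume 0 1 :=
    intervalIntegral.intervalIntegrable_rpow' (by norm_num)
  have i2 : IntervalIntegrable (fun t : ℝ => (1 - t) ^ (-(1 / 2) : ℝ)) volume 0 1 := by
    have := (intervalIntegral.intervalIntegrable_rpow' (a := 0) (b := 1)
      (r := (-(1 / 2) : ℝ)) (by norm_num)).comp_sub_left 1
    simp only [sub_zero, sub_self] at this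
    exact this.symm
  have i3 : IntervalIntegrable (fun t : ℝ => 1 / √(t * (1 - t))) volume 0 1 := by
    refine (i1.add i2).mono_fun ?_ ?_
    · exact (measurable_const.div ((measurable_id.mul (measurable_const.sub measurable_id)).sqrt)).aestronglyMeasurable
    · rw [Filter.EventuallyLE, ae_restrict_iff' measurableSet_uIoc]
      refine Filter.Eventually.of_forall (fun t ht => ?_)
      rw [uIoc_of_le zero_le_one] at ht
      obtain ⟨h0, h1⟩ := ht
      have e1 : t ^ (-(1 / 2) : ℝ) = 1 / √t := by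
        rw [Real.rpow_neg h0.le, ← Real.sqrt_eq_rpow, one_div]
      have e2 : (1 - t) ^ (-(1 / 2) : ℝ) = 1 / √(1 - t) := by
        rw [Real.rpow_neg (by linarith), ← Real.sqrt_eq_rpow, one_div]
      rw [e1, e2, Real.norm_of_nonneg (by positivity), Real.norm_of_nonneg (by positivity)]
      rcases eq_or_lt_of_le h1 with h2 | h2
      · rw [h2]; simp
      · have p1 : 0 < √t := Real.sqrt_pos.mpr h0
        have p2 : 0 < √(1 - t) := Real.sqrt_pos.mpr (by linarith)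
        rw [Real.sqrt_mul h0.le, div_add_div _ _ p1.ne' p2.ne', div_le_div_iff_of_pos_right (by positivity)]
        have q1 : √t ^ 2 = t := Real.sq_sqrt h0.le
        have q2 : √(1 - t) ^ 2 = 1 - t := Real.sq_sqrt (by linarith)
        nlinarith [mul_pos p1 p2]
  have h4 : (fun t : ℝ => om (σ * t) / √(t * (1 - t))) =
      fun t : ℝ => om (σ * t) * (1 / √(t * (1 - t))) := by
    funext t; rw [mul_one_div]
  rw [h4]
  exact i3.continuousOn_mul
    (MSA_om_cont.comp (continuous_const.mul continuous_id)).continuousOn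

theorem MSA : MSA_stmt := by
  intro ka K ρ hk h0 h1
  set w0 : ℝ := 1 - ρ ^ 2 with hw0
  have hw : 0 < w0 := by nlinarith
  have hsw : 0 < √w0 := Real.sqrt_pos.mpr hw
  have hsw2 : √w0 ^ 2 = w0 := Real.sq_sqrt hw.le
  -- step 1
  have s1 : Ph (gs ka K) ρ = ρ * ∫ t in Ioi (0 : ℝ), -2 * MSA_D ka K (w0 - t ^ 2) := by
    unfold Ph
    congr 1
    refine setIntegral_congr_fun measurableSet_Ioi (fun t _ => ?_)
    have hp : 0 < ρ ^ 2 + t ^ 2 := by positivity
    have hs : 0 < √(ρ ^ 2 + t ^ 2) := Real.sqrt_pos.mpr hp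
    have hs2 : √(ρ ^ 2 + t ^ 2) ^ 2 = ρ ^ 2 + t ^ 2 := Real.sq_sqrt hp.le
    rw [MSA_dGG ka K hk hs, hs2]
    have e : 1 - (ρ ^ 2 + t ^ 2) = w0 - t ^ 2 := by rw [hw0]; ring
    rw [e]
    field_simp
  -- step 2: restriction to `(0, √w0)`
  have s2 : ∫ t in Ioi (0 : ℝ), -2 * MSA_D ka K (w0 - t ^ 2) =
      ∫ t in Ioo (0 : ℝ) (√w0), -2 * MSA_D ka K (w0 - t ^ 2) := by
    refine setIntegral_eq_of_subset_of_forall_sdiff_eq_zero measurableSet_Ioi
      (fun t ht => ht.1) (fun t ht => ?_)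
    have h2 : √w0 ≤ t := by
      by_contra hc
      exact ht.2 ⟨ht.1, not_le.mp hc⟩
    have h3 : w0 - t ^ 2 ≤ 0 := by nlinarith
    unfold MSA_D
    rw [if_neg (not_lt.mpr h3), mul_zero]
  -- step 3: substitution
  have himg : (fun s : ℝ => √(w0 * (1 - s))) '' Ioo (0 : ℝ) 1 = Ioo (0 : ℝ) (√w0) := by
    ext t
    constructor
    · rintro ⟨s, ⟨hs0, hs1⟩, rfl⟩
      refine ⟨Real.sqrt_pos.mpr (mul_pos hw (by linarith)), ?_⟩
      exact Real.sqrt_lt_sqrt (by nlinarith) (by nlinarith)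
    · rintro ⟨ht0, ht1⟩
      have ht2 : t ^ 2 < w0 := by nlinarith
      refine ⟨1 - t ^ 2 / w0, ⟨?_, ?_⟩, ?_⟩
      · rw [sub_pos, div_lt_one hw]; exact ht2
      · have : 0 < t ^ 2 / w0 := by positivity
        linarith
      · simp only
        have : w0 * (1 - (1 - t ^ 2 / w0)) = t ^ 2 := by field_simp; ring
        rw [this, Real.sqrt_sq ht0.le]
  have hder : ∀ s ∈ Ioo (0 : ℝ) 1, HasDerivWithinAt (fun s : ℝ => √(w0 * (1 - s)))
      (-w0 / (2 * √(w0 * (1 - s)))) (Ioo 0 1) s := by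
    intro s hs
    have h2 : HasDerivAt (fun s : ℝ => w0 * (1 - s)) (w0 * (-1)) s :=
      ((hasDerivAt_id s).const_sub 1).const_mul w0
    have h3 : w0 * (1 - s) ≠ 0 := (mul_pos hw (by linarith [hs.2])).ne'
    have h4 := h2.sqrt h3
    refine (h4.congr_deriv ?_).hasDerivWithinAt
    ring
  have hinj : InjOn (fun s : ℝ => √(w0 * (1 - s))) (Ioo (0 : ℝ) 1) := by
    intro s hs s' hs' h
    simp only at h
    have h3 : w0 * (1 - s) = w0 * (1 - s') := by
      rw [← Real.sq_sqrt (mul_pos hw (show (0 : ℝ) < 1 - s by linarith [hs.2])).le, h,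
        Real.sq_sqrt (mul_pos hw (show (0 : ℝ) < 1 - s' by linarith [hs'.2])).le]
    have := mul_left_cancel₀ hw.ne' h3
    linarith
  have s3 : ∫ t in Ioo (0 : ℝ) (√w0), -2 * MSA_D ka K (w0 - t ^ 2) =
      ∫ s in Ioo (0 : ℝ) 1, |-w0 / (2 * √(w0 * (1 - s)))| •
        (-2 * MSA_D ka K (w0 - (√(w0 * (1 - s))) ^ 2)) := by
    rw [← himg]
    exact integral_image_eq_integral_abs_deriv_smul measurableSet_Ioo hder hinj _
  have s4 : ∫ s in Ioo (0 : ℝ) 1, |-w0 / (2 * √(w0 * (1 - s)))| •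
        (-2 * MSA_D ka K (w0 - (√(w0 * (1 - s))) ^ 2)) =
      ∫ s in Ioo (0 : ℝ) 1, -(om (2 ^ ka * w0 * s) / √(s * (1 - s)) -
        om (2 ^ K * w0 * s) / √(s * (1 - s))) := by
    refine setIntegral_congr_fun measurableSet_Ioo (fun s hs => ?_)
    have p1 : 0 < 1 - s := by linarith [hs.2]
    have p0 : 0 < s := hs.1
    have e1 : w0 - (√(w0 * (1 - s))) ^ 2 = w0 * s := by
      rw [Real.sq_sqrt (mul_pos hw p1).le]; ring
    rw [e1]
    unfold MSA_D
    rw [if_pos (mul_pos hw p0), smul_eq_mul, abs_div, abs_neg, abs_of_pos hw,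
      abs_of_pos (by positivity), Real.sqrt_mul hw.le, Real.sqrt_mul hw.le, Real.sqrt_mul p0.le,
      ← mul_assoc, ← mul_assoc]
    have q0 : 0 < √s := Real.sqrt_pos.mpr p0
    have q1 : 0 < √(1 - s) := Real.sqrt_pos.mpr p1
    field_simp
    rw [hsw2]
  rw [s1, s2, s3, s4, integral_neg, ← integral_Ioc_eq_integral_Ioo,
    ← intervalIntegral.integral_of_le zero_le_one,
    intervalIntegral.integral_sub (MSA_om_integrable _) (MSA_om_integrable _)]
  unfold Th
  ring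

end SF
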